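import Pool.Agent.H608.Tk.Base
import Pool.Agent.H608.Tw.Alg

/-!
# Almost all subsets
-/

set_option autoImplicit false

namespace Pool.Agent.H608.Tk

open Finset Filter Topology MeasureTheory
open Pool.Agent.H608.Tw (B D D_bound Sparse mul_D_tendsto Rich)

/-- one fair coin -/
noncomputable def coin : Measure Bool := (2⁻¹ : ENNReal) • Measure.dirac true + (2⁻¹ : ENNReal) • Measure.dirac false

instance : IsProbabilityMeasure coin := ⟨by
  unfold coin
  simp [ENNReal.inv_two_add_inv_two]⟩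

lemma coin_not : coin.map not = coin := by
  have hm : Measurable not := measurable_of_countable _
  unfold coin
  rw [Measure.map_add _ _ hm, Measure.map_smul, Measure.map_smul, Measure.map_dirac' hm, Measure.map_dirac' hm]
  simp only [Bool.not_true, Bool.not_false]
  rw [add_comm]

/-- coin tossing -/
noncomputable def toss : Measure (ℕ → Bool) := Measure.infinitePi fun _ => coin

instance : IsProbabilityMeasure toss := by
  unfold toss
  infer_instance

/-- change of one coordinate -/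
def flip (j : ℕ) (ε : ℕ → Bool) : ℕ → Bool := Function.update ε j (!ε j)

lemma flip_eq (j : ℕ) : flip j = fun ε i => (if i = j then not else id : Bool → Bool) (ε i) := by
  funext ε i
  unfold flip
  by_cases h : i = j
  · rw [h, Function.update_self, if_pos rfl]
  · rw [Function.update_of_ne h, if_neg h, id]

lemma flip_mp (j : ℕ) : MeasurePreserving (flip j) toss toss := by
  have hm : ∀ i : ℕ, Measurable (if i = j then not else id : Bool → Bool) := fun i => measurable_of_countable _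
  have h := Measure.infinitePi_map_pi (μ := fun _ : ℕ => coin) (f := fun i => (if i = j then not else id : Bool → Bool)) hm
  refine ⟨?_, ?_⟩
  · rw [flip_eq]
    exact measurable_pi_lambda _ fun i => (hm i).comp (measurable_pi_apply i)
  · unfold toss
    rw [flip_eq, h]
    congr 1
    funext i
    split_ifs
    · exact coin_not
    · exact Measure.map_id

lemma flip_of_ne {j i : ℕ} (h : i ≠ j) (ε : ℕ → Bool) : flip j ε i = ε i := Function.update_of_ne h _ _

/-- a closed set is almost invariant under changes of remote coordinates -/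
lemma flip_ae {μ : Measure (ℕ → Bool)} [IsFiniteMeasure μ] (hμ : ∀ j, MeasurePreserving (flip j) μ μ)
    {Z : Set (ℕ → Bool)} (hZ : IsClosed Z) {J : Set ℕ} (hJ : ∀ n, ∃ j, n ≤ j ∧ j ∈ J) :
    ∀ᵐ ε ∂μ, ε ∈ Z → ∀ n, ∃ j, n ≤ j ∧ j ∈ J ∧ flip j ε ∈ Z := by
  have hZm : MeasurableSet Z := hZ.measurableSet
  -- the hulls
  obtain ⟨H, hH⟩ : ∃ H : ℕ → Set (ℕ → Bool), H = fun n => {ε | ∃ ε' ∈ Z, ∀ i < n, ε' i = ε i} := ⟨_, rfl⟩
  have hHm : ∀ n, MeasurableSet (H n) := by
    intro n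
    have h1 : H n = (fun (ε : ℕ → Bool) (i : Fin n) => ε i) ⁻¹' ((fun (ε : ℕ → Bool) (i : Fin n) => ε i) '' Z) := by
      rw [hH]
      ext ε
      simp only [Set.mem_ofPred_eq, Set.mem_preimage, Set.mem_image]
      constructor
      · rintro ⟨ε', h2, h3⟩
        exact ⟨ε', h2, funext fun i => h3 i i.2⟩
      · rintro ⟨ε', h2, h3⟩
        exact ⟨ε', h2, fun i hi => congrFun h3 ⟨i, hi⟩⟩
    rw [h1]
    exact (measurable_pi_lambda _ fun i => measurable_pi_apply _) (Set.toFinite _).measurableSet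
  have hHa : Antitone H := by
    intro n m hnm
    rw [hH]
    rintro ε ⟨ε', h2, h3⟩
    exact ⟨ε', h2, fun i hi => h3 i (lt_of_lt_of_le hi hnm)⟩
  have hHi : ⋂ n, H n = Z := by
    apply Set.Subset.antisymm
    · intro ε hε
      rw [Set.mem_iInter, hH] at hε
      choose η h1 h2 using hε
      apply hZ.mem_of_tendsto (f := η) (b := atTop) _ (Eventually.of_forall h1)
      rw [tendsto_pi_nhds]
      intro i
      apply tendsto_const_nhds.congr'
      filter_upwards [eventually_gt_atTop i] with n hn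
      exact (h2 n i hn).symm
    · intro ε hε
      rw [Set.mem_iInter, hH]
      exact fun n => ⟨ε, hε, fun _ _ => rfl⟩
  have hlim : Tendsto (fun n => μ (H n)) atTop (𝓝 (μ Z)) := by
    rw [← hHi]
    exact tendsto_measure_iInter_atTop (fun n => (hHm n).nullMeasurableSet) hHa ⟨0, measure_ne_top _ _⟩
  -- the exceptional sets
  have key : ∀ N, μ {ε | ε ∈ Z ∧ ∀ j, N ≤ j → j ∈ J → flip j ε ∉ Z} = 0 := by
    intro N
    obtain ⟨Q, hQ⟩ : ∃ Q, Q = {ε : ℕ → Bool | ε ∈ Z ∧ ∀ j, N ≤ j → j ∈ J → flip j ε ∉ Z} := ⟨_, rfl⟩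
    rw [← hQ]
    have h1 : ∀ n, μ Q + μ Z ≤ μ (H n) := by
      intro n
      obtain ⟨j, hj, hjJ⟩ := hJ (max n N)
      have hjn : n ≤ j := (le_max_left _ _).trans hj
      have hjN : N ≤ j := (le_max_right _ _).trans hj
      have hm : MeasurableSet (flip j ⁻¹' Z) := (hμ j).measurable hZm
      have h2 : μ (flip j ⁻¹' Z) = μ Z := (hμ j).measure_preimage hZm.nullMeasurableSet
      calc μ Q + μ Z ≤ μ (Z \ flip j ⁻¹' Z) + μ (flip j ⁻¹' Z) := by
            refine add_le_add (measure_mono ?_) (le_of_eq h2.symm)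
            rw [hQ]
            rintro ε ⟨h3, h4⟩
            exact ⟨h3, h4 j hjN hjJ⟩
        _ = μ (Z \ flip j ⁻¹' Z ∪ flip j ⁻¹' Z) := (measure_union Set.disjoint_sdiff_left hm).symm
        _ ≤ μ (H n) := by
            apply measure_mono
            rw [hH]
            rintro ε (⟨h3, _⟩ | h3)
            · exact ⟨ε, h3, fun _ _ => rfl⟩
            · exact ⟨flip j ε, h3, fun i hi => flip_of_ne (by omega) ε⟩
    have h2 : μ Q + μ Z ≤ μ Z := ge_of_tendsto' hlim h1
    have h3 : μ Q + μ Z ≤ 0 + μ Z := by rwa [zero_add]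
    exact le_antisymm ((ENNReal.add_le_add_iff_right (measure_ne_top _ _)).1 h3) zero_le
  have h1 : μ (⋃ N, {ε | ε ∈ Z ∧ ∀ j, N ≤ j → j ∈ J → flip j ε ∉ Z}) = 0 := measure_iUnion_null key
  rw [ae_iff]
  refine measure_mono_null ?_ h1
  intro ε hε
  simp only [Set.mem_ofPred_eq] at hε
  push Not at hε
  obtain ⟨h2, n, h3⟩ := hε
  rw [Set.mem_iUnion]
  exact ⟨n, h2, h3⟩

/-- the subset of `A` given by a sequence of coin tosses -/
def Sub (A : Set ℕ) (ε : ℕ → Bool) : Set ℕ := {p | p ∈ A ∧ ε p = true}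

lemma Sub_sparse {A : Set ℕ} (hs : Sparse A) (ε : ℕ → Bool) : Sparse (Sub A ε) := by
  classical
  refine Summable.of_nonneg_of_le (fun p => ?_) (fun p => ?_) hs
  · split_ifs
    · positivity
    · exact le_rfl
  · by_cases h : p ∈ Sub A ε
    · rw [if_pos h, if_pos h.1]
    · rw [if_neg h]
      split_ifs
      · positivity
      · exact le_rfl

section

variable {A : Set ℕ} {f : ℕ → ℝ} (hA : ∀ p ∈ A, Adm f p) (hs : Sparse A)

include hA hs

lemma Lam_Sub_cont (x : ℝ) : Continuous fun ε : ℕ → Bool => Lam f (Sub A ε) x := by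
  classical
  unfold Lam
  apply continuous_tsum (u := fun p : ℕ => if p ∈ A then (1 : ℝ) / p else 0)
  · intro p
    by_cases h : p ∈ A
    · have h1 : Continuous fun b : Bool => if b = true then u f p * D p x else 0 := continuous_of_discreteTopology
      have h2 : (fun ε : ℕ → Bool => if p ∈ Sub A ε then u f p * D p x else 0) =
          (fun b : Bool => if b = true then u f p * D p x else 0) ∘ fun ε => ε p := by
        funext ε
        simp only [Function.comp, Sub, Set.mem_ofPred_eq, h, true_and]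
      rw [h2]
      exact h1.comp (continuous_apply p)
    · have h2 : (fun ε : ℕ → Bool => if p ∈ Sub A ε then u f p * D p x else 0) = fun _ => 0 := by
        funext ε
        rw [if_neg fun h' => h h'.1]
      rw [h2]
      exact continuous_const
  · exact hs
  · intro p ε
    rw [Real.norm_eq_abs]
    by_cases h : p ∈ Sub A ε
    · rw [if_pos h, if_pos h.1]
      exact uD_bound (hA p h.1) x
    · rw [if_neg h, abs_zero]
      split_ifs
      · positivity
      · exact le_rfl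

lemma Lam_flip (x : ℝ) (ε : ℕ → Bool) {j : ℕ} (hj : j ∈ A) :
    Lam f (Sub A (flip j ε)) x = Lam f (Sub A ε) x + (if ε j = true then -1 else 1) * (u f j * D j x) := by
  classical
  have hE : ∀ ε : ℕ → Bool, ∀ p ∈ Sub A ε, Adm f p := fun ε p hp => hA p hp.1
  unfold Lam
  rw [(Lam_summable (hE _) (Sub_sparse hs _) x).tsum_eq_add_tsum_ite j,
    (Lam_summable (hE ε) (Sub_sparse hs _) x).tsum_eq_add_tsum_ite j]
  have h1 : ∀ p, (if p = j then (0 : ℝ) else if p ∈ Sub A (flip j ε) then u f p * D p x else 0) =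
      if p = j then 0 else if p ∈ Sub A ε then u f p * D p x else 0 := by
    intro p
    by_cases hpj : p = j
    · rw [if_pos hpj, if_pos hpj]
    · rw [if_neg hpj, if_neg hpj]
      by_cases h2 : p ∈ Sub A ε
      · have h3 : p ∈ Sub A (flip j ε) := ⟨h2.1, by rw [flip_of_ne hpj]; exact h2.2⟩
        rw [if_pos h2, if_pos h3]
      · have h3 : p ∉ Sub A (flip j ε) := fun h => h2 ⟨h.1, by have h4 := h.2; rwa [flip_of_ne hpj] at h4⟩
        rw [if_neg h2, if_neg h3]
  rw [tsum_congr h1]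
  have h2 : (if j ∈ Sub A (flip j ε) then u f j * D j x else 0) =
      (if j ∈ Sub A ε then u f j * D j x else 0) + (if ε j = true then -1 else 1) * (u f j * D j x) := by
    have h3 : flip j ε j = !ε j := Function.update_self _ _ _
    simp only [Sub, Set.mem_ofPred_eq, hj, true_and, h3]
    cases ε j <;> simp
  rw [h2]
  ring

/-- the exponential sum vanishes -/
def VanAt (f : ℕ → ℝ) (A : Set ℕ) {r t : ℕ} (a : Fin r → ℝ) (α : Fin t → Fin r → ℤ) (c : Fin t → ℝ) (ε : ℕ → Bool) : Prop :=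
  ∑ j, c j * Real.exp (∑ i, (α j i : ℝ) * Lam f (Sub A ε) (a i)) = 0

lemma VanAt_closed {r t : ℕ} (a : Fin r → ℝ) (α : Fin t → Fin r → ℤ) (c : Fin t → ℝ) :
    IsClosed {ε | VanAt f A a α c ε} := by
  apply isClosed_eq
  · refine continuous_finsetSum _ fun j _ => continuous_const.mul (Real.continuous_exp.comp ?_)
    exact continuous_finsetSum _ fun i _ => continuous_const.mul (Lam_Sub_cont hA hs _)
  · exact continuous_const

lemma VanAt_step {r t : ℕ} {a : Fin r → ℝ} {α : Fin t → Fin r → ℤ} {c : Fin t → ℝ} {ε : ℕ → Bool}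
    (h : VanAt f A a α c ε) {d m : ℕ} (ha : ∀ i, ∃ z : ℤ, (d : ℝ) * a i = z)
    (hr : ∀ n, ∃ j, n ≤ j ∧ j ∈ {j | j ∈ A ∧ j ≡ m [MOD d]} ∧ VanAt f A a α c (flip j ε)) :
    VanAt f A a α (fun j => c j * ∑ i, (α j i : ℝ) * B (m * a i)) ε := by
  choose J hJk hJ hJv using hr
  have hJA : ∀ k, J k ∈ A := fun k => (hJ k).1
  have hJm : ∀ k, J k ≡ m [MOD d] := fun k => (hJ k).2
  have hJt : Tendsto J atTop atTop := tendsto_atTop_mono hJk tendsto_id
  obtain ⟨s, hsd⟩ : ∃ s : ℕ → ℝ, s = fun k => if ε (J k) = true then -1 else 1 := ⟨_, rfl⟩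
  have hs2 : ∀ k, s k * s k = 1 := by
    intro k
    rw [hsd]
    simp only
    split_ifs <;> norm_num
  have hsa : ∀ k, |s k| = 1 := by
    intro k
    rw [hsd]
    simp only
    split_ifs <;> norm_num
  have hup : ∀ k x, Lam f (Sub A (flip (J k) ε)) x = Lam f (Sub A ε) x + s k * (u f (J k) * D (J k) x) := by
    intro k x
    rw [Lam_flip hA hs x ε (hJA k), hsd]
  have h1 : ∀ k, ∑ j, c j * (Real.exp (∑ i, (α j i : ℝ) * Lam f (Sub A ε) (a i)) *
      ((s k * ((J k : ℝ) / u f (J k))) • (Real.exp (0 + ∑ i, (α j i : ℝ) * (s k * (u f (J k) * D (J k) (a i)))) -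
        Real.exp 0))) = 0 := by
    intro k
    have h2 := hJv k
    unfold VanAt at h2 h
    have h4 : ∀ j, Real.exp (∑ i, (α j i : ℝ) * Lam f (Sub A (flip (J k) ε)) (a i)) =
        Real.exp (∑ i, (α j i : ℝ) * Lam f (Sub A ε) (a i)) *
          Real.exp (0 + ∑ i, (α j i : ℝ) * (s k * (u f (J k) * D (J k) (a i)))) := by
      intro j
      rw [← Real.exp_add]
      congr 1
      simp only [hup, mul_add, sum_add_distrib]
      ring
    simp only [h4] at h2
    have h5 : ∀ j, c j * (Real.exp (∑ i, (α j i : ℝ) * Lam f (Sub A ε) (a i)) *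
        ((s k * ((J k : ℝ) / u f (J k))) • (Real.exp (0 + ∑ i, (α j i : ℝ) * (s k * (u f (J k) * D (J k) (a i)))) -
          Real.exp 0))) =
        (s k * ((J k : ℝ) / u f (J k))) * (c j * (Real.exp (∑ i, (α j i : ℝ) * Lam f (Sub A ε) (a i)) *
          Real.exp (0 + ∑ i, (α j i : ℝ) * (s k * (u f (J k) * D (J k) (a i)))))) -
        (s k * ((J k : ℝ) / u f (J k))) * (c j * Real.exp (∑ i, (α j i : ℝ) * Lam f (Sub A ε) (a i))) := by
      intro j
      rw [smul_eq_mul, Real.exp_zero]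
      ring
    simp only [h5, sum_sub_distrib, ← mul_sum]
    rw [h2, h]
    ring
  have h2 : Tendsto (fun k => ∑ j, c j * (Real.exp (∑ i, (α j i : ℝ) * Lam f (Sub A ε) (a i)) *
      ((s k * ((J k : ℝ) / u f (J k))) • (Real.exp (0 + ∑ i, (α j i : ℝ) * (s k * (u f (J k) * D (J k) (a i)))) -
        Real.exp 0)))) atTop
      (𝓝 (∑ j, c j * (Real.exp (∑ i, (α j i : ℝ) * Lam f (Sub A ε) (a i)) * (∑ i, (α j i : ℝ) * B (m * a i))))) := by
    apply tendsto_finsetSum
    intro j _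
    refine (Tendsto.const_mul _ ?_).const_mul _
    have h3 : HasDerivAt Real.exp 1 0 := by
      have h4 := Real.hasDerivAt_exp 0
      rwa [Real.exp_zero] at h4
    have h5 := h3.hasFDerivAt.hasFDerivWithinAt (s := Set.univ)
    have hlim : Tendsto (fun k => ∑ i, (α j i : ℝ) * (s k * (u f (J k) * D (J k) (a i)))) atTop (𝓝 0) := by
      have h8 : Tendsto (fun k => ∑ i, (α j i : ℝ) * (s k * (u f (J k) * D (J k) (a i)))) atTop
          (𝓝 (∑ i, (α j i : ℝ) * 0)) := by
        apply tendsto_finsetSum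
        intro i _
        refine Tendsto.const_mul _ ?_
        refine squeeze_zero_norm (a := fun k => 1 / (J k : ℝ)) (fun k => ?_) ?_
        · rw [Real.norm_eq_abs, abs_mul, hsa, one_mul]
          exact uD_bound (hA _ (hJA k)) _
        · have h3 : Tendsto (fun k => ((J k : ℕ) : ℝ)) atTop atTop := tendsto_natCast_atTop_atTop.comp hJt
          simp only [one_div]
          exact h3.inv_tendsto_atTop
      simpa using h8
    have h6 := h5.lim (c := fun k => s k * ((J k : ℝ) / u f (J k)))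
      (d := fun k => ∑ i, (α j i : ℝ) * (s k * (u f (J k) * D (J k) (a i))))
      (v := ∑ i, (α j i : ℝ) * B (m * a i)) hlim (Eventually.of_forall fun _ => Set.mem_univ _) ?_
    · simpa using h6
    · have h7 : ∀ k, (s k * ((J k : ℝ) / u f (J k))) • ∑ i, (α j i : ℝ) * (s k * (u f (J k) * D (J k) (a i))) =
          ∑ i, (α j i : ℝ) * ((J k : ℝ) * D (J k) (a i)) := by
        intro k
        have h8 := (hA _ (hJA k)).u_ne
        rw [smul_eq_mul, mul_sum]
        refine sum_congr rfl fun i _ => ?_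
        have h9 : s k * ((J k : ℝ) / u f (J k)) * ((α j i : ℝ) * (s k * (u f (J k) * D (J k) (a i)))) =
            (s k * s k) * ((α j i : ℝ) * ((J k : ℝ) * D (J k) (a i))) := by
          field_simp
        rw [h9, hs2, one_mul]
      simp only [h7]
      apply tendsto_finsetSum
      intro i _
      exact (mul_D_tendsto hJt (fun k => (hA _ (hJA k)).1.two_le) hJm (ha i)).const_mul _
  simp only [h1] at h2
  have h3 := tendsto_nhds_unique h2 tendsto_const_nhds
  unfold VanAt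
  rw [← h3]
  refine sum_congr rfl fun j _ => ?_
  ring

lemma ae_not_VanAt {μ : Measure (ℕ → Bool)} [IsFiniteMeasure μ] (hμ : ∀ j, MeasurePreserving (flip j) μ μ) (hrich : Rich A)
    {r t : ℕ} {a : Fin r → ℝ} {α : Fin t → Fin r → ℤ} {c : Fin t → ℝ} {d : ℕ}
    (hd : 1 ≤ d) (ha : ∀ i, ∃ z : ℤ, (d : ℝ) * a i = z)
    (hα : ∀ j k, j ≠ k → ∃ m : ℕ, m.Coprime d ∧ ∑ i, (α j i : ℝ) * B (m * a i) ≠ ∑ i, (α k i : ℝ) * B (m * a i))
    (hc : c ≠ 0) : ∀ᵐ ε ∂μ, ¬ VanAt f A a α c ε := by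
  obtain ⟨j₀, hj₀⟩ : ∃ j, c j ≠ 0 := by
    by_contra hcon
    push Not at hcon
    exact hc (funext hcon)
  choose! m hm1 hm2 using fun k (hk : k ≠ j₀) => hα j₀ k hk.symm
  have key : ∀ T : Finset (Fin t), j₀ ∉ T → ∀ᵐ ε ∂μ, VanAt f A a α c ε →
      VanAt f A a α (fun j => c j * ∏ k ∈ T, (∑ i, (α j i : ℝ) * B (m k * a i) - ∑ i, (α k i : ℝ) * B (m k * a i))) ε := by
    intro T
    induction T using Finset.induction_on with
    | empty =>
      intro _
      simp
    | insert k T hk ih =>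
      intro hj
      have hkj : k ≠ j₀ := fun h => hj (by rw [h]; exact mem_insert_self _ _)
      have hJ : ∀ n, ∃ j, n ≤ j ∧ j ∈ {j | j ∈ A ∧ j ≡ m k [MOD d]} := by
        intro n
        obtain ⟨p, hp, h1, h2⟩ := hrich d (m k) hd (hm1 k hkj) n
        exact ⟨p, h1.le, hp, h2⟩
      filter_upwards [ih fun h => hj (mem_insert_of_mem h),
        flip_ae hμ (VanAt_closed hA hs a α (fun j => c j * ∏ k ∈ T, (∑ i, (α j i : ℝ) * B (m k * a i) -
          ∑ i, (α k i : ℝ) * B (m k * a i)))) hJ] with ε h1 h2 h3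
      have h4 := h1 h3
      have h5 := VanAt_step hA hs h4 ha (h2 h4)
      unfold VanAt at h4 h5 ⊢
      have h6 : ∑ j, (c j * ∏ k ∈ insert k T, (∑ i, (α j i : ℝ) * B (m k * a i) - ∑ i, (α k i : ℝ) * B (m k * a i))) *
          Real.exp (∑ i, (α j i : ℝ) * Lam f (Sub A ε) (a i)) =
          ∑ j, (c j * ∏ k ∈ T, (∑ i, (α j i : ℝ) * B (m k * a i) - ∑ i, (α k i : ℝ) * B (m k * a i))) *
            (∑ i, (α j i : ℝ) * B (m k * a i)) * Real.exp (∑ i, (α j i : ℝ) * Lam f (Sub A ε) (a i)) -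
          (∑ i, (α k i : ℝ) * B (m k * a i)) *
            ∑ j, (c j * ∏ k ∈ T, (∑ i, (α j i : ℝ) * B (m k * a i) - ∑ i, (α k i : ℝ) * B (m k * a i))) *
              Real.exp (∑ i, (α j i : ℝ) * Lam f (Sub A ε) (a i)) := by
        rw [mul_sum, ← sum_sub_distrib]
        refine sum_congr rfl fun j _ => ?_
        rw [prod_insert hk]
        ring
      rw [h6, h4, h5]
      ring
  filter_upwards [key (univ.erase j₀) (notMem_erase _ _)] with ε h1 h2
  have h3 := h1 h2
  unfold VanAt at h3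
  rw [sum_eq_single j₀] at h3
  · have h4 : Real.exp (∑ i, (α j₀ i : ℝ) * Lam f (Sub A ε) (a i)) ≠ 0 := (Real.exp_pos _).ne'
    have h5 := (mul_eq_zero.1 h3).resolve_right h4
    have h6 := (mul_eq_zero.1 h5).resolve_left hj₀
    rw [prod_eq_zero_iff] at h6
    obtain ⟨k, hk, h7⟩ := h6
    exact hm2 k (mem_erase.1 hk).1 (sub_eq_zero.1 h7)
  · intro j _ hj
    have h4 : ∏ k ∈ univ.erase j₀, (∑ i, (α j i : ℝ) * B (m k * a i) - ∑ i, (α k i : ℝ) * B (m k * a i)) = 0 :=
      prod_eq_zero (mem_erase.2 ⟨hj, mem_univ _⟩) (sub_self _)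
    simp only [h4, mul_zero, zero_mul]
  · intro h
    exact absurd (mem_univ _) h

/-- for almost all subsets all monomials that can be independent are independent -/
theorem ae_indep {μ : Measure (ℕ → Bool)} [IsFiniteMeasure μ] (hμ : ∀ j, MeasurePreserving (flip j) μ μ) (hrich : Rich A)
    {K : Set ℝ} (hK : K.Countable) :
    ∀ᵐ ε ∂μ, ∀ (r t : ℕ) (a : Fin r → ℚ) (α : Fin t → Fin r → ℤ) (c : Fin t → ℝ) (d : ℕ),
      (∀ i, ∃ z : ℤ, (d : ℝ) * a i = z) → (∀ i, Real.Gamma (a i) ≠ 0) → 1 ≤ d →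
      (∀ j k, j ≠ k → ∃ m : ℕ, m.Coprime d ∧ ∑ i, (α j i : ℝ) * B (m * a i) ≠ ∑ i, (α k i : ℝ) * B (m * a i)) →
      (∀ j, c j ∈ K) → c ≠ 0 → ∑ j, c j * ∏ i, GamE f (Sub A ε) (a i) ^ α j i ≠ 0 := by
  have : Countable K := hK.to_subtype
  have h1 : ∀ᵐ ε ∂μ, ∀ s : {s : (Σ r : ℕ, Σ t : ℕ, ((Fin r → ℚ) × (Fin t → Fin r → ℤ) × (Fin t → K) × ℕ)) //
      (∀ i, ∃ z : ℤ, (s.2.2.2.2.2 : ℝ) * s.2.2.1 i = z) ∧ (∀ i, Real.Gamma (s.2.2.1 i) ≠ 0) ∧ 1 ≤ s.2.2.2.2.2 ∧
        (∀ j k, j ≠ k → ∃ m : ℕ, m.Coprime s.2.2.2.2.2 ∧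
          ∑ i, (s.2.2.2.1 j i : ℝ) * B (m * s.2.2.1 i) ≠ ∑ i, (s.2.2.2.1 k i : ℝ) * B (m * s.2.2.1 i)) ∧
        (fun j => (s.2.2.2.2.1 j : ℝ)) ≠ 0},
      ∑ j, (s.1.2.2.2.2.1 j : ℝ) * ∏ i, GamE f (Sub A ε) (s.1.2.2.1 i) ^ (s.1.2.2.2.1 j i) ≠ 0 := by
    rw [ae_all_iff]
    rintro ⟨⟨r, t, a, α, c, d⟩, h1, h2, h3, h4, h5⟩
    simp only at h1 h2 h3 h4 h5 ⊢
    have h6 : (fun j => (c j : ℝ) * ∏ i, Real.Gamma (a i) ^ α j i) ≠ 0 := by
      intro h6
      apply h5
      funext j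
      have h7 := congrFun h6 j
      simp only [Pi.zero_apply] at h7 ⊢
      exact (mul_eq_zero.1 h7).resolve_right (prod_ne_zero_iff.2 fun i _ => zpow_ne_zero _ (h2 i))
    filter_upwards [ae_not_VanAt hA hs hμ hrich h3 h1 h4 h6] with ε h7 h8
    apply h7
    unfold VanAt
    simp only [prod_GamE] at h8
    rw [← h8]
    refine sum_congr rfl fun j _ => ?_
    ring
  filter_upwards [h1] with ε hε r t a α c d h2 h3 h4 h5 h6 h7
  exact hε ⟨⟨r, t, a, α, fun j => ⟨c j, h6 j⟩, d⟩, h2, h3, h4, h5, h7⟩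

end

end Pool.Agent.H608.Tk
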