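import Pool.Agent.H608.Tw.Mono

/-!
# Weighted twists
-/

set_option autoImplicit false

namespace Pool.Agent.H608.Tk

open Finset Filter Topology
open Pool.Agent.H608.Tw (B B_add_int B_neg B_abs B_of_mem B_zero B_rat D D_summable D_bound D_add_int D_neg D_dist D_rat
  D_succ Sparse Es mem_Es tsum_Es inv_le baire comb_zero comb_ne_zero)

/-- the logarithm of the change of the prime `p` -/
noncomputable def u (f : ℕ → ℝ) (p : ℕ) : ℝ := Real.log (f p / p)

/-- `f` changes the prime `p`, at most by a factor `2` -/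
def Adm (f : ℕ → ℝ) (p : ℕ) : Prop := p.Prime ∧ (p : ℝ) / 2 ≤ f p ∧ f p ≤ 2 * p ∧ f p ≠ p

lemma Adm.pos {f : ℕ → ℝ} {p : ℕ} (h : Adm f p) : 0 < f p := by
  have h1 : (0 : ℝ) < p := by exact_mod_cast h.1.pos
  linarith [h.2.1]

lemma Adm.u_ne {f : ℕ → ℝ} {p : ℕ} (h : Adm f p) : u f p ≠ 0 := by
  have h1 : (0 : ℝ) < p := by exact_mod_cast h.1.pos
  unfold u
  apply Real.log_ne_zero_of_pos_of_ne_one (div_pos h.pos h1)
  intro h2
  rw [div_eq_one_iff_eq h1.ne'] at h2
  exact h.2.2.2 h2

lemma Adm.u_le {f : ℕ → ℝ} {p : ℕ} (h : Adm f p) : |u f p| ≤ 1 := by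
  have h1 : (0 : ℝ) < p := by exact_mod_cast h.1.pos
  have h2 : Real.log 2 ≤ 1 := by
    have := Real.log_two_lt_d9
    linarith
  unfold u
  rw [abs_le]
  constructor
  · have h3 : (1 : ℝ) / 2 ≤ f p / p := by
      rw [le_div_iff₀ h1]
      linarith [h.2.1]
    have h4 := Real.log_le_log (by norm_num) h3
    rw [Real.log_div (by norm_num) (by norm_num), Real.log_one] at h4
    linarith
  · have h3 : f p / p ≤ 2 := by
      rw [div_le_iff₀ h1]
      exact h.2.2.1
    have h4 := Real.log_le_log (div_pos h.pos h1) h3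
    linarith

open Classical in
/-- the exponent of the twist -/
noncomputable def Lam (f : ℕ → ℝ) (E : Set ℕ) (x : ℝ) : ℝ := ∑' p : ℕ, if p ∈ E then u f p * D p x else 0

lemma Lam_add_int (f : ℕ → ℝ) (E : Set ℕ) (x : ℝ) (n : ℤ) : Lam f E (x + n) = Lam f E x := by
  unfold Lam
  simp only [D_add_int]

lemma Lam_neg (f : ℕ → ℝ) (E : Set ℕ) (x : ℝ) : Lam f E (-x) = -Lam f E x := by
  unfold Lam
  rw [← tsum_neg]
  apply tsum_congr
  intro p
  split_ifs
  · rw [D_neg, mul_neg]
  · rw [neg_zero]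

lemma uD_bound {f : ℕ → ℝ} {p : ℕ} (h : Adm f p) (x : ℝ) : |u f p * D p x| ≤ 1 / p := by
  rw [abs_mul]
  calc |u f p| * |D p x| ≤ 1 * (1 / p) :=
        mul_le_mul h.u_le (D_bound h.1.two_le x) (abs_nonneg _) zero_le_one
    _ = 1 / p := one_mul _

lemma Lam_summable {f : ℕ → ℝ} {E : Set ℕ} (hE : ∀ p ∈ E, Adm f p) (hs : Sparse E) (x : ℝ) :
    open Classical in Summable fun p : ℕ => if p ∈ E then u f p * D p x else 0 := by
  classical
  refine Summable.of_norm_bounded hs fun p => ?_
  rw [Real.norm_eq_abs]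
  split_ifs with h
  · exact uD_bound (hE p h) x
  · rw [abs_zero]

open Classical in
/-- the completely multiplicative function with `p ↦ f p` for `p ∈ E` and `p ↦ p` for the other primes -/
noncomputable def NE (f : ℕ → ℝ) (E : Set ℕ) (N : ℕ) : ℝ :=
  N.factorization.prod fun p k => (if p ∈ E then f p else (p : ℝ)) ^ k

open Classical in
/-- its quotient by `N` -/
lemma NE_pos {f : ℕ → ℝ} {E : Set ℕ} (hE : ∀ p ∈ E, Adm f p) (N : ℕ) : 0 < NE f E N := by
  unfold NE Finsupp.prod
  apply prod_pos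
  intro p hp
  apply pow_pos
  split_ifs with h
  · exact (hE p h).pos
  · have h1 := Nat.prime_of_mem_primeFactors (by rwa [← Nat.support_factorization] : p ∈ N.primeFactors)
    exact_mod_cast h1.pos

open Classical in
lemma log_NE {f : ℕ → ℝ} {E : Set ℕ} (hE : ∀ p ∈ E, Adm f p) {N : ℕ} (hN : 1 ≤ N) :
    Real.log (NE f E N) - Real.log N = ∑ p ∈ N.primeFactors, if p ∈ E then N.factorization p * u f p else 0 := by
  have hp0 : ∀ p ∈ N.primeFactors, (0 : ℝ) < p := fun p hp => by
    exact_mod_cast (Nat.prime_of_mem_primeFactors hp).pos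
  have h1 : Real.log N = ∑ p ∈ N.primeFactors, N.factorization p * Real.log p := by
    conv_lhs => rw [← Nat.prod_factorization_pow_eq_self (by omega : N ≠ 0)]
    unfold Finsupp.prod
    rw [Nat.support_factorization]
    push_cast
    rw [Real.log_prod]
    · exact sum_congr rfl fun p _ => by rw [Real.log_pow]
    · intro p hp
      exact pow_ne_zero _ (hp0 p hp).ne'
  have h2 : Real.log (NE f E N) = ∑ p ∈ N.primeFactors, N.factorization p * Real.log (if p ∈ E then f p else (p : ℝ)) := by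
    unfold NE Finsupp.prod
    rw [Nat.support_factorization, Real.log_prod]
    · exact sum_congr rfl fun p _ => by rw [Real.log_pow]
    · intro p hp
      apply pow_ne_zero
      split_ifs with h
      · exact (hE p h).pos.ne'
      · exact (hp0 p hp).ne'
  rw [h1, h2, ← sum_sub_distrib]
  refine sum_congr rfl fun p hp => ?_
  split_ifs with h
  · unfold u
    rw [Real.log_div (hE p h).pos.ne' (hp0 p hp).ne']
    ring
  · ring

lemma Lam_dist {f : ℕ → ℝ} {E : Set ℕ} (hE : ∀ p ∈ E, Adm f p) (hs : Sparse E) {N : ℕ} (hN : 1 ≤ N) (x : ℝ) :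
    ∑ j ∈ range N, Lam f E ((x + j) / N) = Lam f E x + (Real.log (NE f E N) - Real.log N) * B x := by
  classical
  rw [log_NE hE hN]
  unfold Lam
  rw [← Summable.tsum_finsetSum fun j _ => Lam_summable hE hs _]
  have h1 : ∀ p : ℕ, ∑ j ∈ range N, (if p ∈ E then u f p * D p ((x + j) / N) else 0) =
      (if p ∈ E then u f p * D p x else 0) + if p ∈ E then N.factorization p * u f p * B x else 0 := by
    intro p
    by_cases h : p ∈ E
    · simp only [if_pos h]
      rw [← mul_sum, D_dist (hE p h).1 hN x]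
      ring
    · simp only [if_neg h, sum_const_zero, add_zero]
  have hfin : ∀ p, p ∉ N.primeFactors → (if p ∈ E then N.factorization p * u f p * B x else 0 : ℝ) = 0 := by
    intro p hp
    split_ifs with h
    · have h2 : N.factorization p = 0 := by
        by_contra h3
        apply hp
        rw [← Nat.support_factorization]
        exact Finsupp.mem_support_iff.2 h3
      rw [h2, Nat.cast_zero, zero_mul, zero_mul]
    · rfl
  have hsum : Summable fun p : ℕ => (if p ∈ E then N.factorization p * u f p * B x else 0 : ℝ) :=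
    summable_of_ne_finset_zero fun p hp => hfin p hp
  rw [tsum_congr h1, (Lam_summable hE hs x).tsum_add hsum, tsum_eq_sum hfin, sum_mul]
  congr 1
  refine sum_congr rfl fun p hp => ?_
  split_ifs
  · rfl
  · rw [zero_mul]

section Choice

variable {P : ℕ → ℕ} (hP : StrictMono P) {f : ℕ → ℝ} (hp : ∀ j, Adm f (P j) ∧ 2 ^ j ≤ P j)

include hP hp

lemma Lam_Es (ε : ℕ → Bool) (x : ℝ) : Lam f (Es P ε) x = ∑' j, if ε j = true then u f (P j) * D (P j) x else 0 :=
  tsum_Es hP (fun j => ⟨(hp j).1.1, (hp j).2⟩) ε fun p => u f p * D p x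

lemma term_bound (x : ℝ) (ε : ℕ → Bool) (j : ℕ) : |(if ε j = true then u f (P j) * D (P j) x else 0)| ≤ (1 / 2) ^ j := by
  split_ifs
  · exact (uD_bound (hp j).1 x).trans (inv_le hP (fun j => ⟨(hp j).1.1, (hp j).2⟩) j)
  · rw [abs_zero]
    positivity

lemma term_summable (x : ℝ) (ε : ℕ → Bool) : Summable fun j => if ε j = true then u f (P j) * D (P j) x else 0 :=
  Summable.of_norm_bounded (summable_geometric_of_lt_one (by norm_num : (0 : ℝ) ≤ 1 / 2) (by norm_num)) fun j => by
    rw [Real.norm_eq_abs]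
    exact term_bound hP hp x ε j

lemma Lam_cont (x : ℝ) : Continuous fun ε : ℕ → Bool => Lam f (Es P ε) x := by
  simp only [Lam_Es hP hp]
  apply continuous_tsum (u := fun j => (1 / 2 : ℝ) ^ j)
  · intro j
    have h1 : Continuous fun b : Bool => if b = true then u f (P j) * D (P j) x else 0 := continuous_of_discreteTopology
    exact h1.comp (continuous_apply j)
  · exact summable_geometric_of_lt_one (by norm_num) (by norm_num)
  · intro j ε
    rw [Real.norm_eq_abs]
    exact term_bound hP hp x ε j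

/-- switching on one coordinate -/
lemma Lam_update (x : ℝ) (ε : ℕ → Bool) {j : ℕ} (hj : ε j = false) :
    Lam f (Es P (Function.update ε j true)) x = Lam f (Es P ε) x + u f (P j) * D (P j) x := by
  rw [Lam_Es hP hp, Lam_Es hP hp]
  rw [(term_summable hP hp x _).tsum_eq_add_tsum_ite j, (term_summable hP hp x ε).tsum_eq_add_tsum_ite j,
    Function.update_self, if_pos rfl, hj]
  simp only [Bool.false_eq_true, if_false, zero_add]
  rw [add_comm]
  congr 1
  apply tsum_congr
  intro i
  by_cases hij : i = j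
  · rw [if_pos hij, if_pos hij]
  · rw [if_neg hij, if_neg hij, Function.update_of_ne hij]

end Choice

/-- the twisted function -/
noncomputable def GamE (f : ℕ → ℝ) (E : Set ℕ) (x : ℝ) : ℝ := Real.Gamma x * Real.exp (Lam f E x)

lemma prod_GamE (f : ℕ → ℝ) (E : Set ℕ) {r : ℕ} (n : Fin r → ℤ) (a : Fin r → ℝ) :
    ∏ i, GamE f E (a i) ^ n i = (∏ i, Real.Gamma (a i) ^ n i) * Real.exp (∑ i, n i * Lam f E (a i)) := by
  unfold GamE
  rw [Real.exp_sum, ← prod_mul_distrib]
  refine prod_congr rfl fun i _ => ?_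
  rw [mul_zpow, mul_comm (n i : ℝ), Real.exp_mul, Real.rpow_intCast]

lemma GamE_add_one (f : ℕ → ℝ) (E : Set ℕ) {x : ℝ} (hx : x ≠ 0) : GamE f E (x + 1) = x * GamE f E x := by
  unfold GamE
  have h1 := Lam_add_int f E x 1
  push_cast at h1
  rw [Real.Gamma_add_one hx, h1, mul_assoc]

lemma GamE_reflection (f : ℕ → ℝ) (E : Set ℕ) (x : ℝ) :
    GamE f E x * GamE f E (1 - x) = Real.pi / Real.sin (Real.pi * x) := by
  unfold GamE
  have h1 : Lam f E (1 - x) = -Lam f E x := by
    rw [← Lam_neg]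
    have h2 := Lam_add_int f E (-x) 1
    push_cast at h2
    rw [← h2]
    congr 1
    ring
  rw [h1, ← Real.Gamma_mul_Gamma_one_sub, Real.exp_neg]
  have h2 : Real.exp (Lam f E x) ≠ 0 := (Real.exp_pos _).ne'
  field_simp

lemma GamE_mult {f : ℕ → ℝ} {E : Set ℕ} (hE : ∀ p ∈ E, Adm f p) (hs : Sparse E) {N : ℕ} (hN : 1 ≤ N) {x : ℝ} (h0 : 0 < x)
    (h1 : x < 1) : (∏ j ∈ range N, GamE f E ((x + j) / N)) / (NE f E N ^ (1 / 2 - x) * GamE f E x) =
      (∏ j ∈ range N, Real.Gamma ((x + j) / N)) / ((N : ℝ) ^ (1 / 2 - x) * Real.Gamma x) := by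
  have hN0 : (0 : ℝ) < N := by exact_mod_cast hN
  have h2 : (0 : ℝ) < (N : ℝ) ^ (1 / 2 - x) := Real.rpow_pos_of_pos hN0 _
  have h3 : 0 < Real.Gamma x := Real.Gamma_pos_of_pos h0
  have h4 : NE f E N ^ (1 / 2 - x) = (N : ℝ) ^ (1 / 2 - x) * Real.exp ((Real.log (NE f E N) - Real.log N) * (1 / 2 - x)) := by
    rw [Real.rpow_def_of_pos (NE_pos hE N), Real.rpow_def_of_pos hN0, ← Real.exp_add]
    congr 1
    ring
  unfold GamE
  rw [prod_mul_distrib, ← Real.exp_sum, Lam_dist hE hs hN, B_of_mem h0 h1, h4, Real.exp_add]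
  have h5 := (Real.exp_pos (Lam f E x)).ne'
  have h6 := (Real.exp_pos ((Real.log (NE f E N) - Real.log N) * (1 / 2 - x))).ne'
  field_simp

/-- the values agree up to rational powers of the `f p / p` when the Bernoulli combinations vanish -/
lemma exists_rat_power {f : ℕ → ℝ} {E : Set ℕ} (hE : ∀ p ∈ E, Adm f p) (hs : Sparse E) {r : ℕ} {n : Fin r → ℤ}
    {a : Fin r → ℚ} {d : ℕ} (hd : 1 ≤ d) (h : ∀ m : ℕ, m.Coprime d → ∑ i, n i * B (m * a i) = 0) :
    open Classical in ∃ s : ℕ → ℚ, ∏ i, GamE f E (a i) ^ n i =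
      (∏ p ∈ d.primeFactors.filter (· ∈ E), (f p / p) ^ (s p : ℝ)) * ∏ i, Real.Gamma (a i) ^ n i := by
  classical
  have h1 : ∃ s : ℕ → ℚ, ∑ i, n i * Lam f E (a i) = ∑ p ∈ d.primeFactors.filter (· ∈ E), s p * u f p := by
    unfold Lam
    have h2 : ∀ i ∈ (univ : Finset (Fin r)), Summable fun p : ℕ => (n i : ℝ) * (if p ∈ E then u f p * D p (a i) else 0) :=
      fun i _ => (Lam_summable hE hs (a i)).mul_left _
    have h3 : ∑ i, (n i : ℝ) * (∑' p : ℕ, if p ∈ E then u f p * D p (a i) else 0) =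
        ∑' p : ℕ, if p ∈ E then u f p * ∑ i, (n i : ℝ) * D p (a i) else 0 := by
      simp only [← tsum_mul_left]
      rw [← Summable.tsum_finsetSum h2]
      apply tsum_congr
      intro p
      split_ifs
      · rw [mul_sum]
        exact sum_congr rfl fun i _ => by ring
      · simp
    have h4 : ∀ p, p ∉ d.primeFactors.filter (· ∈ E) → (if p ∈ E then u f p * ∑ i, (n i : ℝ) * D p (a i) else 0) = 0 := by
      intro p hp
      split_ifs with hpE
      · have hpp := (hE p hpE).1
        rw [comb_zero hpp.two_le, mul_zero]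
        intro k
        have hpd : ¬ p ∣ d := by
          intro hdiv
          apply hp
          rw [mem_filter, Nat.mem_primeFactors]
          exact ⟨⟨hpp, hdiv, by omega⟩, hpE⟩
        have h5 := h (p ^ (k + 1)) (Nat.Coprime.pow_left _ ((Nat.Prime.coprime_iff_not_dvd hpp).2 hpd))
        push_cast at h5
        exact h5
      · rfl
    rw [h3, tsum_eq_sum h4]
    have h5 : ∀ p ∈ d.primeFactors.filter (· ∈ E), ∃ s : ℚ, (if p ∈ E then u f p * ∑ i, (n i : ℝ) * D p (a i) else 0) =
        s * u f p := by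
      intro p hp
      have hpE := (mem_filter.1 hp).2
      rw [if_pos hpE]
      choose s hs' using fun i => D_rat (hE p hpE).1.two_le (a i)
      refine ⟨∑ i, n i * s i, ?_⟩
      push_cast
      rw [mul_comm]
      congr 1
      exact sum_congr rfl fun i _ => by rw [hs' i]
    choose! s hs' using h5
    exact ⟨s, sum_congr rfl hs'⟩
  obtain ⟨s, hs'⟩ := h1
  refine ⟨s, ?_⟩
  rw [prod_GamE, hs', mul_comm, Real.exp_sum]
  congr 1
  refine prod_congr rfl fun p hp => ?_
  have hpE := (mem_filter.1 hp).2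
  have hp0 : (0 : ℝ) < p := by exact_mod_cast (hE p hpE).1.pos
  rw [Real.rpow_def_of_pos (div_pos (hE p hpE).pos hp0)]
  unfold u
  rw [mul_comm]

end Pool.Agent.H608.Tk
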