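import Pool.Agent.H608.Tk.Saw
import Pool.Agent.H608.Tk.Base

/-!
# Kummer's series
-/

set_option autoImplicit false

namespace Pool.Agent.H608.Tk

open Finset Filter Topology
open Pool.Agent.H608.Tw (B B_abs D Sparse)

lemma sum_multiples {m : ℕ} (_hm : 1 ≤ m) (g : ℕ → ℝ) (N : ℕ) :
    ∑ j ∈ range (N / m), g ((j + 1) * m) = ∑ n ∈ range N, if m ∣ n + 1 then g (n + 1) else 0 := by
  induction N with
  | zero => simp
  | succ N ih =>
    rw [sum_range_succ, ← ih, Nat.succ_div]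
    split_ifs with h
    · rw [sum_range_succ]
      congr 2
      have h1 : (N + 1) / m * m = N + 1 := Nat.div_mul_cancel h
      rw [Nat.succ_div, if_pos h] at h1
      exact h1
    · rw [add_zero, add_zero]

lemma sum_pow_dvd {p N : ℕ} (hp : p.Prime) (hN : N ≠ 0) (c : ℝ) :
    ∑ k ∈ range N, (if p ^ (k + 1) ∣ N then c else 0) = N.factorization p * c := by
  have h1 : ∀ k, p ^ (k + 1) ∣ N ↔ k + 1 ≤ N.factorization p := fun k => hp.pow_dvd_iff_le_factorization hN
  rw [← sum_filter, sum_const, nsmul_eq_mul]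
  congr 2
  have h2 : (range N).filter (fun k => p ^ (k + 1) ∣ N) = range (N.factorization p) := by
    ext k
    rw [mem_filter, mem_range, mem_range, h1]
    have h3 := Nat.factorization_lt p hN
    omega
  rw [h2, card_range]

open Classical in
lemma tsum_log {f : ℕ → ℝ} {E : Set ℕ} (hE : ∀ p ∈ E, Adm f p) {N : ℕ} (hN : N ≠ 0) :
    HasSum (fun q : ℕ × ℕ => if q.1 ∈ E ∧ q.1 ^ (q.2 + 1) ∣ N then u f q.1 else 0) (Real.log (NE f E N) - Real.log N) := by
  have h1 : Real.log (NE f E N) - Real.log N =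
      ∑ q ∈ N.primeFactors ×ˢ range N, if q.1 ∈ E ∧ q.1 ^ (q.2 + 1) ∣ N then u f q.1 else 0 := by
    rw [log_NE hE (by omega), sum_product]
    refine sum_congr rfl fun p hp => ?_
    have hpp := Nat.prime_of_mem_primeFactors hp
    by_cases h : p ∈ E
    · rw [if_pos h, ← sum_pow_dvd hpp hN]
      refine sum_congr rfl fun k _ => ?_
      simp only [h, true_and]
    · rw [if_neg h]
      symm
      apply sum_eq_zero
      intro k _
      rw [if_neg]
      exact fun h' => h h'.1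
  rw [h1]
  apply hasSum_sum_of_ne_finset_zero
  intro q hq
  rw [if_neg]
  rintro ⟨h2, h3⟩
  apply hq
  have hpp := (hE q.1 h2).1
  rw [mem_product, Nat.mem_primeFactors, mem_range]
  refine ⟨⟨hpp, (dvd_pow_self _ (by omega)).trans h3, hN⟩, ?_⟩
  have h4 := Nat.le_of_dvd (Nat.pos_of_ne_zero hN) h3
  have h5 : q.2 + 1 < q.1 ^ (q.2 + 1) := Nat.lt_pow_self hpp.one_lt
  omega

/-- Kummer's series for the logarithm of the twisted function divided by the gamma function -/
theorem kummer {f : ℕ → ℝ} {E : Set ℕ} (hE : ∀ p ∈ E, Adm f p) (hs : Sparse E) (x : ℝ) :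
    Tendsto (fun N : ℕ => 1 / Real.pi * ∑ n ∈ range N, (Real.log (NE f E (n + 1)) - Real.log ((n + 1 : ℕ) : ℝ)) *
      (Real.sin (2 * Real.pi * (n + 1) * x) / (n + 1))) atTop (𝓝 (Lam f E x)) := by
  classical
  obtain ⟨F, hF⟩ : ∃ F : ℕ → ℕ × ℕ → ℝ, F = fun N q => if q.1 ∈ E then
    u f q.1 / (q.1 : ℝ) ^ (q.2 + 1) * S (N / q.1 ^ (q.2 + 1)) ((q.1 : ℝ) ^ (q.2 + 1) * x) else 0 := ⟨_, rfl⟩
  obtain ⟨G, hG⟩ : ∃ G : ℕ × ℕ → ℝ, G = fun q => if q.1 ∈ E then
    u f q.1 / (q.1 : ℝ) ^ (q.2 + 1) * B ((q.1 : ℝ) ^ (q.2 + 1) * x) else 0 := ⟨_, rfl⟩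
  obtain ⟨b, hb⟩ : ∃ b : ℕ × ℕ → ℝ, b = fun q => (if q.1 ∈ E then (1 : ℝ) / q.1 else 0) * (3 * (1 / 2) ^ q.2) := ⟨_, rfl⟩
  have hbs : Summable b := by
    rw [hb]
    apply Summable.mul_of_nonneg (f := fun p : ℕ => if p ∈ E then (1 : ℝ) / p else 0) (g := fun k : ℕ => 3 * (1 / 2 : ℝ) ^ k)
      hs ((summable_geometric_of_lt_one (by norm_num) (by norm_num)).mul_left _)
    · intro p
      simp only [Pi.zero_apply]
      split_ifs
      · positivity
      · exact le_rfl
    · intro k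
      simp only [Pi.zero_apply]
      positivity
  have hcoef : ∀ q : ℕ × ℕ, q.1 ∈ E → ∀ y : ℝ, |y| ≤ 3 → |u f q.1 / (q.1 : ℝ) ^ (q.2 + 1) * y| ≤ b q := by
    intro q hq y hy
    have h1 := hE q.1 hq
    have hp2 : (2 : ℝ) ≤ q.1 := by exact_mod_cast h1.1.two_le
    rw [hb]
    simp only
    rw [if_pos hq, abs_mul, abs_div, abs_of_pos (by positivity : (0 : ℝ) < (q.1 : ℝ) ^ (q.2 + 1))]
    have h2 : (q.1 : ℝ) * 2 ^ q.2 ≤ (q.1 : ℝ) ^ (q.2 + 1) := by
      rw [pow_succ, mul_comm]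
      exact mul_le_mul_of_nonneg_right (pow_le_pow_left₀ (by norm_num) hp2 _) (by positivity)
    have h3 : |u f q.1| / (q.1 : ℝ) ^ (q.2 + 1) ≤ 1 / q.1 * (1 / 2) ^ q.2 := by
      rw [one_div_pow, one_div_mul_one_div]
      exact div_le_div₀ zero_le_one h1.u_le (by positivity) h2
    calc |u f q.1| / (q.1 : ℝ) ^ (q.2 + 1) * |y| ≤ 1 / q.1 * (1 / 2) ^ q.2 * 3 :=
          mul_le_mul h3 hy (abs_nonneg _) (by positivity)
      _ = 1 / q.1 * (3 * (1 / 2) ^ q.2) := by ring
  have hFb : ∀ N q, ‖F N q‖ ≤ b q := by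
    intro N q
    rw [Real.norm_eq_abs, hF]
    simp only
    split_ifs with h
    · exact hcoef q h _ (S_bound _ _)
    · rw [abs_zero, hb]
      simp only
      rw [if_neg h, zero_mul]
  have hGb : ∀ q, ‖G q‖ ≤ b q := by
    intro q
    rw [Real.norm_eq_abs, hG]
    simp only
    split_ifs with h
    · exact hcoef q h _ ((B_abs _).trans (by norm_num))
    · rw [abs_zero, hb]
      simp only
      rw [if_neg h, zero_mul]
  -- the limit
  have hlim : Tendsto (fun N => ∑' q, F N q) atTop (𝓝 (∑' q, G q)) := by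
    apply tendsto_tsum_of_dominated_convergence hbs
    · intro q
      rw [hF, hG]
      simp only
      by_cases h : q.1 ∈ E
      · simp only [if_pos h]
        apply Tendsto.const_mul
        have h1 : q.1 ^ (q.2 + 1) ≠ 0 := pow_ne_zero _ (hE q.1 h).1.ne_zero
        exact (S_tendsto _).comp (Nat.tendsto_div_const_atTop h1)
      · simp only [if_neg h]
        exact tendsto_const_nhds
    · exact Eventually.of_forall fun N q => hFb N q
  have hGsum : ∑' q, G q = Lam f E x := by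
    have hGs : Summable G := Summable.of_norm_bounded hbs hGb
    rw [hGs.tsum_prod]
    unfold Lam
    apply tsum_congr
    intro p
    rw [hG]
    simp only
    split_ifs with h
    · unfold D
      rw [← tsum_mul_left]
      apply tsum_congr
      intro k
      ring
    · exact tsum_zero
  rw [hGsum] at hlim
  refine hlim.congr fun N => ?_
  -- the finite identity
  have h1 : ∀ q, F N q = ∑ n ∈ range N, (1 / Real.pi * (Real.sin (2 * Real.pi * (n + 1) * x) / (n + 1))) *
      (if q.1 ∈ E ∧ q.1 ^ (q.2 + 1) ∣ n + 1 then u f q.1 else 0) := by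
    intro q
    rw [hF]
    simp only
    by_cases h : q.1 ∈ E
    · rw [if_pos h]
      have hp0 : (q.1 : ℝ) ≠ 0 := by exact_mod_cast (hE q.1 h).1.ne_zero
      have hm : 1 ≤ q.1 ^ (q.2 + 1) := Nat.one_le_pow _ _ (hE q.1 h).1.pos
      have h2 := sum_multiples hm (fun n => u f q.1 * (1 / Real.pi * (Real.sin (2 * Real.pi * n * x) / n))) N
      have h3 : u f q.1 / (q.1 : ℝ) ^ (q.2 + 1) * S (N / q.1 ^ (q.2 + 1)) ((q.1 : ℝ) ^ (q.2 + 1) * x) =
          ∑ j ∈ range (N / q.1 ^ (q.2 + 1)), (fun n : ℕ => u f q.1 * (1 / Real.pi * (Real.sin (2 * Real.pi * n * x) / n)))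
            ((j + 1) * q.1 ^ (q.2 + 1)) := by
        unfold S
        rw [mul_sum, mul_sum]
        refine sum_congr rfl fun j _ => ?_
        push_cast
        have h4 : 2 * Real.pi * ((j : ℝ) + 1) * ((q.1 : ℝ) ^ (q.2 + 1) * x) =
            2 * Real.pi * (((j : ℝ) + 1) * (q.1 : ℝ) ^ (q.2 + 1)) * x := by ring
        rw [h4]
        have h5 := Real.pi_pos.ne'
        field_simp
      rw [h3, h2]
      refine sum_congr rfl fun n _ => ?_
      by_cases hd : q.1 ^ (q.2 + 1) ∣ n + 1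
      · rw [if_pos hd, if_pos ⟨h, hd⟩]
        push_cast
        ring
      · rw [if_neg hd, if_neg fun h' => hd h'.2, mul_zero]
    · rw [if_neg h]
      symm
      apply sum_eq_zero
      intro n _
      rw [if_neg fun h' => h h'.1, mul_zero]
  have h2 : HasSum (F N) (∑ n ∈ range N, (1 / Real.pi * (Real.sin (2 * Real.pi * (n + 1) * x) / (n + 1))) *
      (Real.log (NE f E (n + 1)) - Real.log ((n + 1 : ℕ) : ℝ))) := by
    have h3 : F N = fun q => ∑ n ∈ range N, (1 / Real.pi * (Real.sin (2 * Real.pi * (n + 1) * x) / (n + 1))) *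
      (if q.1 ∈ E ∧ q.1 ^ (q.2 + 1) ∣ n + 1 then u f q.1 else 0) := funext h1
    rw [h3]
    apply hasSum_sum
    intro n _
    exact (tsum_log hE (by omega)).mul_left _
  rw [h2.tsum_eq, mul_sum]
  refine sum_congr rfl fun n _ => ?_
  ring

end Pool.Agent.H608.Tk
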