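import Pool.Graph.R_seed8.H916R2.ExpZetaOne
import Pool.Agent.H608.Tw.Dist

/-!
# The Fourier series of the first Bernoulli function: bounded convergence
-/

set_option autoImplicit false

namespace Pool.Agent.H608.Tk

open Finset Filter Topology Complex
open Pool.Agent.H916R2 (sum_by_parts norm_geom_le gw RR tendsto_partial tendsto_RR expZeta_eq_RR sinZeta_one)
open Pool.Agent.H608.Tw (B B_add_int B_of_mem B_zero)

lemma norm_pow_sub_one_le {z : ℂ} (hz : ‖z‖ = 1) (n : ℕ) : ‖z ^ n - 1‖ ≤ n * ‖1 - z‖ := by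
  induction n with
  | zero => simp
  | succ n ih =>
    have h1 : z ^ (n + 1) - 1 = z * (z ^ n - 1) - (1 - z) := by ring
    rw [h1]
    refine (norm_sub_le _ _).trans ?_
    rw [norm_mul, hz, one_mul]
    push_cast
    linarith

lemma tail_bound {z : ℂ} (hz : ‖z‖ = 1) (hz1 : z ≠ 1) (m K : ℕ) :
    ‖∑ k ∈ range K, z ^ (m + k + 1) / ((m + k + 1 : ℕ) : ℂ)‖ ≤ 2 / ‖1 - z‖ * (1 / (m + 1)) := by
  have hM : 0 ≤ 2 / ‖1 - z‖ := by positivity
  obtain ⟨g, hg⟩ : ∃ g : ℕ → ℝ, g = fun k : ℕ => 1 / ((m : ℝ) + (k : ℝ) + 1) := ⟨_, rfl⟩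
  have hg0 : ∀ k, 0 ≤ g k := by
    intro k
    rw [hg]
    positivity
  have hgm : ∀ k, g (k + 1) ≤ g k := by
    intro k
    rw [hg]
    simp only
    apply one_div_le_one_div_of_le (by positivity)
    push_cast
    linarith
  have hb : ∀ n, ‖∑ k ∈ range n, z ^ (m + k + 1)‖ ≤ 2 / ‖1 - z‖ := by
    intro n
    have h1 : ∑ k ∈ range n, z ^ (m + k + 1) = z ^ m * ∑ k ∈ range n, z ^ (k + 1) := by
      rw [mul_sum]
      exact sum_congr rfl fun k _ => by ring
    rw [h1, norm_mul, norm_pow, hz, one_pow, one_mul]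
    exact norm_geom_le hz hz1 n
  have h1 : ∑ k ∈ range K, z ^ (m + k + 1) / ((m + k + 1 : ℕ) : ℂ) = ∑ k ∈ range K, z ^ (m + k + 1) * ((g k : ℝ) : ℂ) := by
    refine sum_congr rfl fun k _ => ?_
    rw [hg]
    push_cast
    rw [div_eq_mul_one_div]
  rw [h1, sum_by_parts (fun k => z ^ (m + k + 1)) (fun k => ((g k : ℝ) : ℂ)) K]
  have h2 : ‖∑ n ∈ range K, (∑ k ∈ range (n + 1), z ^ (m + k + 1)) * (((g n : ℝ) : ℂ) - ((g (n + 1) : ℝ) : ℂ))‖ ≤
      2 / ‖1 - z‖ * (g 0 - g K) := by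
    refine (norm_sum_le _ _).trans ?_
    have h3 : ∀ n ∈ range K, ‖(∑ k ∈ range (n + 1), z ^ (m + k + 1)) * (((g n : ℝ) : ℂ) - ((g (n + 1) : ℝ) : ℂ))‖ ≤
        2 / ‖1 - z‖ * (g n - g (n + 1)) := by
      intro n _
      rw [norm_mul, ← ofReal_sub, norm_real, Real.norm_eq_abs, abs_of_nonneg (sub_nonneg.2 (hgm n))]
      exact mul_le_mul_of_nonneg_right (hb _) (sub_nonneg.2 (hgm n))
    refine (sum_le_sum h3).trans (le_of_eq ?_)
    rw [← mul_sum, sum_range_sub']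
  have h3 : ‖(∑ k ∈ range K, z ^ (m + k + 1)) * ((g K : ℝ) : ℂ)‖ ≤ 2 / ‖1 - z‖ * g K := by
    rw [norm_mul, norm_real, Real.norm_eq_abs, abs_of_nonneg (hg0 K)]
    exact mul_le_mul_of_nonneg_right (hb _) (hg0 K)
  refine (norm_add_le _ _).trans ((add_le_add h2 h3).trans (le_of_eq ?_))
  rw [← mul_add, sub_add_cancel, hg]
  push_cast
  rw [add_zero]

/-- the partial sums of the Fourier series -/
noncomputable def S (N : ℕ) (y : ℝ) : ℝ := 1 / Real.pi * ∑ n ∈ range N, Real.sin (2 * Real.pi * (n + 1) * y) / (n + 1)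

lemma im_pow (y : ℝ) (n : ℕ) : (cexp (2 * Real.pi * I * y) ^ n).im = Real.sin (2 * Real.pi * n * y) := by
  rw [← Complex.exp_nat_mul]
  have h1 : (n : ℂ) * (2 * Real.pi * I * y) = ((2 * Real.pi * n * y : ℝ) : ℂ) * I := by
    push_cast
    ring
  rw [h1, Complex.exp_ofReal_mul_I_im]

lemma norm_e (y : ℝ) : ‖cexp (2 * Real.pi * I * y)‖ = 1 := by
  rw [show (2 * Real.pi * I * y : ℂ) = ((2 * Real.pi * y : ℝ) : ℂ) * I by push_cast; ring]
  exact Complex.norm_exp_ofReal_mul_I _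

lemma S_im (N : ℕ) (y : ℝ) : S N y = 1 / Real.pi * (∑ n ∈ range N, cexp (2 * Real.pi * I * y) ^ (n + 1) / ((n + 1 : ℕ) : ℂ)).im := by
  unfold S
  rw [Complex.im_sum]
  congr 1
  refine sum_congr rfl fun n _ => ?_
  rw [Complex.div_natCast_im, im_pow]
  push_cast
  ring

lemma S_bound (N : ℕ) (y : ℝ) : |S N y| ≤ 3 := by
  obtain ⟨z, hz⟩ : ∃ z : ℂ, z = cexp (2 * Real.pi * I * y) := ⟨_, rfl⟩
  have hz0 : ‖z‖ = 1 := by rw [hz]; exact norm_e y
  rw [S_im, ← hz, abs_mul]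
  have hpi : |1 / Real.pi| ≤ 1 := by
    rw [abs_of_pos (by positivity), div_le_one Real.pi_pos]
    linarith [Real.pi_gt_three]
  have key : |(∑ n ∈ range N, z ^ (n + 1) / ((n + 1 : ℕ) : ℂ)).im| ≤ 3 := by
    -- the initial part
    have hinit : ∀ m, |(∑ n ∈ range m, z ^ (n + 1) / ((n + 1 : ℕ) : ℂ)).im| ≤ m * ‖1 - z‖ := by
      intro m
      rw [Complex.im_sum]
      refine (abs_sum_le_sum_abs _ _).trans ?_
      have h1 : ∀ n ∈ range m, |(z ^ (n + 1) / ((n + 1 : ℕ) : ℂ)).im| ≤ ‖1 - z‖ := by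
        intro n _
        rw [Complex.div_natCast_im, abs_div]
        have h2 : |(z ^ (n + 1)).im| ≤ ((n + 1 : ℕ) : ℝ) * ‖1 - z‖ := by
          have h3 : (z ^ (n + 1)).im = (z ^ (n + 1) - 1).im := by simp
          rw [h3]
          exact (Complex.abs_im_le_norm _).trans (norm_pow_sub_one_le hz0 _)
        have h4 : (0 : ℝ) < ((n + 1 : ℕ) : ℝ) := by positivity
        rw [abs_of_pos h4, div_le_iff₀ h4, mul_comm]
        exact h2
      refine (sum_le_sum h1).trans ?_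
      rw [sum_const, card_range, nsmul_eq_mul]
    by_cases hz1 : z = 1
    · have h1 := hinit N
      rw [hz1, sub_self, norm_zero, mul_zero] at h1
      rw [hz1]
      linarith
    · have hσ : 0 < ‖1 - z‖ := norm_pos_iff.2 (sub_ne_zero.2 (Ne.symm hz1))
      obtain ⟨m, hm⟩ : ∃ m, m = ⌊1 / ‖1 - z‖⌋₊ := ⟨_, rfl⟩
      have hm1 : m * ‖1 - z‖ ≤ 1 := by
        have h1 : (m : ℝ) ≤ 1 / ‖1 - z‖ := by
          rw [hm]
          exact Nat.floor_le (by positivity)
        rwa [le_div_iff₀ hσ] at h1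
      have hm2 : 1 / ((m : ℝ) + 1) ≤ ‖1 - z‖ := by
        have h1 : 1 / ‖1 - z‖ < m + 1 := by
          rw [hm]
          exact Nat.lt_floor_add_one _
        rw [div_le_iff₀ (by positivity)]
        rw [div_lt_iff₀ hσ] at h1
        linarith
      rcases le_total N m with h | h
      · refine (hinit N).trans ?_
        have h2 : (N : ℝ) * ‖1 - z‖ ≤ m * ‖1 - z‖ :=
          mul_le_mul_of_nonneg_right (by exact_mod_cast h) hσ.le
        linarith
      · obtain ⟨K, rfl⟩ := Nat.exists_eq_add_of_le h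
        rw [sum_range_add, Complex.add_im]
        refine (abs_add_le _ _).trans ?_
        have h2 := (hinit m).trans hm1
        have h3 := (Complex.abs_im_le_norm _).trans (tail_bound hz0 hz1 m K)
        have h4 : 2 / ‖1 - z‖ * (1 / ((m : ℝ) + 1)) ≤ 2 := by
          calc 2 / ‖1 - z‖ * (1 / ((m : ℝ) + 1)) ≤ 2 / ‖1 - z‖ * ‖1 - z‖ :=
                mul_le_mul_of_nonneg_left hm2 (by positivity)
            _ = 2 := div_mul_cancel₀ _ hσ.ne'
        linarith
  calc |1 / Real.pi| * |(∑ n ∈ range N, z ^ (n + 1) / ((n + 1 : ℕ) : ℂ)).im| ≤ 1 * 3 :=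
        mul_le_mul hpi key (abs_nonneg _) zero_le_one
    _ = 3 := one_mul _

lemma RR_eq {x : ℝ} (hx : (x : UnitAddCircle) ≠ 0) (hz1 : cexp (2 * Real.pi * I * x) ≠ 1) :
    HurwitzZeta.expZeta (x : UnitAddCircle) 1 = RR (cexp (2 * Real.pi * I * x)) 1 := by
  have hz := norm_e x
  have hcont : Tendsto (fun s : ℝ => HurwitzZeta.expZeta (x : UnitAddCircle) (s : ℂ)) (𝓝[>] 1)
      (𝓝 (HurwitzZeta.expZeta (x : UnitAddCircle) ((1 : ℝ) : ℂ))) := by
    have hc : Continuous fun s : ℝ => HurwitzZeta.expZeta (x : UnitAddCircle) (s : ℂ) :=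
      (HurwitzZeta.differentiable_expZeta_of_ne_zero hx).continuous.comp continuous_ofReal
    exact (hc.tendsto 1).mono_left nhdsWithin_le_nhds
  have h2 : Tendsto (fun s : ℝ => HurwitzZeta.expZeta (x : UnitAddCircle) (s : ℂ)) (𝓝[>] 1)
      (𝓝 (RR (cexp (2 * Real.pi * I * x)) 1)) := by
    refine (tendsto_RR hz hz1).congr' ?_
    have h1 : ∀ᶠ s : ℝ in 𝓝[>] 1, s ∈ Set.Ioi (1 : ℝ) := self_mem_nhdsWithin
    have h2 : ∀ᶠ s : ℝ in 𝓝[>] 1, s < 2 :=
      nhdsWithin_le_nhds (Iio_mem_nhds (by norm_num))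
    filter_upwards [h1, h2] with s hs1 hs2
    exact (expZeta_eq_RR rfl hz hz1 hs1 hs2.le).symm
  have := tendsto_nhds_unique hcont h2
  simpa using this

lemma S_tendsto_of_mem {x : ℝ} (h0 : 0 < x) (h1 : x < 1) : Tendsto (fun N => S N x) atTop (𝓝 (1 / 2 - x)) := by
  have hxne : (x : UnitAddCircle) ≠ 0 := by
    intro h
    rw [AddCircle.coe_eq_zero_iff] at h
    obtain ⟨n, hn⟩ := h
    simp only [zsmul_eq_mul, mul_one] at hn
    rw [← hn] at h0 h1
    have h0' : (0 : ℤ) < n := by exact_mod_cast h0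
    have h1' : n < (1 : ℤ) := by exact_mod_cast h1
    omega
  have hne : ∀ y : ℝ, (y : UnitAddCircle) ≠ 0 → cexp (2 * Real.pi * I * y) ≠ 1 := by
    intro y hy h
    rw [Complex.exp_eq_one_iff] at h
    obtain ⟨n, hn⟩ := h
    apply hy
    rw [AddCircle.coe_eq_zero_iff]
    refine ⟨n, ?_⟩
    have h2 : (2 * Real.pi * I : ℂ) ≠ 0 := Complex.two_pi_I_ne_zero
    have h3 : (2 * Real.pi * I : ℂ) * y = (2 * Real.pi * I : ℂ) * n := by
      rw [hn]
      ring
    have h4 := mul_left_cancel₀ h2 h3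
    simp only [zsmul_eq_mul, mul_one]
    exact_mod_cast h4.symm
  have hxne' : ((-x : ℝ) : UnitAddCircle) ≠ 0 := by
    intro h
    apply hxne
    rw [AddCircle.coe_neg, neg_eq_zero] at h
    exact h
  have ht1 := tendsto_partial (norm_e x) (hne x hxne) (s := 1) le_rfl one_le_two
  have ht2 := tendsto_partial (norm_e (-x)) (hne (-x) hxne') (s := 1) le_rfl one_le_two
  rw [← RR_eq hxne (hne x hxne)] at ht1
  rw [← RR_eq hxne' (hne (-x) hxne')] at ht2
  have ht3 := (ht1.sub ht2).div_const (2 * I)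
  have h5 : (HurwitzZeta.expZeta (x : UnitAddCircle) 1 - HurwitzZeta.expZeta ((-x : ℝ) : UnitAddCircle) 1) / (2 * I) =
      ((Real.pi * (1 / 2 - x) : ℝ) : ℂ) := by
    have h6 := sinZeta_one h0 h1
    rw [HurwitzZeta.sinZeta_eq] at h6
    rw [AddCircle.coe_neg, h6]
    push_cast
    ring
  rw [h5] at ht3
  have h7 : ∀ K, (∑ n ∈ range K, cexp (2 * Real.pi * I * x) ^ (n + 1) * (gw 1 n : ℂ) -
      ∑ n ∈ range K, cexp (2 * Real.pi * I * ((-x : ℝ) : ℂ)) ^ (n + 1) * (gw 1 n : ℂ)) / (2 * I) =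
      ((∑ n ∈ range K, Real.sin (2 * Real.pi * (n + 1) * x) / (n + 1) : ℝ) : ℂ) := by
    intro K
    rw [← sum_sub_distrib, sum_div]
    push_cast
    refine sum_congr rfl fun n _ => ?_
    have h8 : (gw 1 n : ℂ) = 1 / ((n : ℂ) + 1) := by
      unfold gw
      rw [Real.rpow_neg_one]
      push_cast
      rw [one_div]
    rw [h8, ← Complex.exp_nat_mul, ← Complex.exp_nat_mul]
    have h9 : Complex.sin (2 * Real.pi * (n + 1) * x) =
        (cexp (((n + 1 : ℕ) : ℂ) * (2 * Real.pi * I * x)) - cexp (((n + 1 : ℕ) : ℂ) * (2 * Real.pi * I * -(x : ℂ)))) / (2 * I) := by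
      rw [Complex.sin]
      have e1 : -(2 * Real.pi * (n + 1) * x : ℂ) * I = ((n + 1 : ℕ) : ℂ) * (2 * Real.pi * I * -(x : ℂ)) := by
        push_cast
        ring
      have e2 : (2 * Real.pi * (n + 1) * x : ℂ) * I = ((n + 1 : ℕ) : ℂ) * (2 * Real.pi * I * x) := by
        push_cast
        ring
      rw [e1, e2]
      have hI : I ≠ 0 := Complex.I_ne_zero
      field_simp
      rw [Complex.I_sq]
      ring
    rw [h9]
    ring
  simp only [h7] at ht3
  have h10 := (Complex.continuous_re.tendsto _).comp ht3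
  simp only [Function.comp_def, Complex.ofReal_re] at h10
  have h11 := h10.const_mul (1 / Real.pi)
  have h12 : 1 / Real.pi * (Real.pi * (1 / 2 - x)) = 1 / 2 - x := by
    have := Real.pi_pos.ne'
    field_simp
  rw [h12] at h11
  exact h11

lemma S_add_int (N : ℕ) (y : ℝ) (m : ℤ) : S N (y + m) = S N y := by
  unfold S
  congr 1
  refine sum_congr rfl fun n _ => ?_
  congr 1
  have h1 : 2 * Real.pi * ((n : ℝ) + 1) * (y + m) = 2 * Real.pi * (n + 1) * y + (((n : ℤ) + 1) * m : ℤ) * (2 * Real.pi) := by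
    push_cast
    ring
  rw [h1, Real.sin_add_int_mul_two_pi]

lemma S_tendsto (y : ℝ) : Tendsto (fun N => S N y) atTop (𝓝 (B y)) := by
  have h1 : ∀ N, S N y = S N (Int.fract y) := by
    intro N
    have h2 := S_add_int N (Int.fract y) ⌊y⌋
    rw [Int.fract_add_floor] at h2
    exact h2
  have h2 : B y = B (Int.fract y) := by
    have h3 := B_add_int (Int.fract y) ⌊y⌋
    rw [Int.fract_add_floor] at h3
    exact h3
  simp only [h1]
  rw [h2]
  rcases (Int.fract_nonneg y).eq_or_lt with h | h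
  · rw [← h, B_zero]
    have h3 : ∀ N, S N 0 = 0 := by
      intro N
      unfold S
      simp
    simp only [h3]
    exact tendsto_const_nhds
  · rw [B_of_mem h (Int.fract_lt_one y)]
    exact S_tendsto_of_mem h (Int.fract_lt_one y)

end Pool.Agent.H608.Tk
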