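import Pool.Agent.H608.Tk.Base
import Pool.Agent.H608.Tw.Alg

/-!
# Thin sets
-/

set_option autoImplicit false

namespace Pool.Agent.H608.Tk

open Finset Filter Topology
open Pool.Agent.H608.Tw (B D D_bound Sparse Rich exists_seq)

/-- the sum of the reciprocals of the elements of `A` -/
noncomputable def recip (A : Set ℕ) : ℝ := open Classical in ∑' p : ℕ, if p ∈ A then (1 : ℝ) / p else 0

lemma Lam_le {f : ℕ → ℝ} {A E : Set ℕ} (hA : ∀ p ∈ A, Adm f p) (hs : Sparse A) (hE : E ⊆ A) (x : ℝ) :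
    |Lam f E x| ≤ recip A := by
  classical
  unfold Lam recip
  have h1 := tsum_of_norm_bounded hs.hasSum (f := fun p : ℕ => if p ∈ E then u f p * D p x else 0) fun p => by
    rw [Real.norm_eq_abs]
    by_cases h : p ∈ E
    · rw [if_pos h, if_pos (hE h)]
      exact uD_bound (hA p (hE h)) x
    · rw [if_neg h, abs_zero]
      split_ifs
      · positivity
      · exact le_rfl
  exact h1

/-- there are thin sets in all residue classes -/
lemma exists_thin {A : Set ℕ} (_hA : ∀ p ∈ A, p.Prime) (hrich : Rich A) {ω : ℕ → ℕ} (hω : Tendsto ω atTop atTop)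
    {δ : ℝ} (hδ : 0 < δ) : ∃ A' ⊆ A, Rich A' ∧ Sparse A' ∧ recip A' ≤ δ ∧ ∀ k, ({p | p ∈ A' ∧ p ≤ k}).ncard ≤ ω k := by
  classical
  obtain ⟨M, hM⟩ : ∃ M : ℕ, 1 ≤ M ∧ 2 / (M : ℝ) ≤ δ := by
    refine ⟨⌈2 / δ⌉₊ + 1, by omega, ?_⟩
    have h1 := Nat.le_ceil (2 / δ)
    rw [div_le_iff₀ (by positivity)]
    rw [div_le_iff₀ hδ] at h1
    push_cast
    nlinarith
  obtain ⟨P, hPm, hPA, hPω, hPr⟩ := exists_seq hrich hω M
  have hMR : (0 : ℝ) < M := by exact_mod_cast hM.1
  have hterm : ∀ j, (1 : ℝ) / P j ≤ 1 / (M : ℝ) * (1 / 2) ^ j := by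
    intro j
    have h3 : (2 : ℝ) ^ j * M ≤ P j := by exact_mod_cast (hPA j).2.1
    rw [one_div_pow, one_div_mul_one_div, mul_comm (M : ℝ)]
    exact one_div_le_one_div_of_le (by positivity) h3
  have hgeo : HasSum (fun j : ℕ => 1 / (M : ℝ) * (1 / 2) ^ j) (1 / (M : ℝ) * 2) := hasSum_geometric_two.mul_left _
  have hsj : Summable fun j : ℕ => (1 : ℝ) / P j :=
    Summable.of_nonneg_of_le (fun j => by positivity) hterm hgeo.summable
  have hinj := hPm.injective
  have hzero : ∀ p, p ∉ Set.range P → (if p ∈ Set.range P then (1 : ℝ) / p else 0) = 0 := fun p hp => if_neg hp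
  have hcomp : ((fun p : ℕ => if p ∈ Set.range P then (1 : ℝ) / p else 0) ∘ P) = fun j => (1 : ℝ) / P j := by
    funext j
    simp only [Function.comp, Set.mem_range_self, if_true]
  have hsp : Summable fun p : ℕ => if p ∈ Set.range P then (1 : ℝ) / p else 0 := by
    rw [← hinj.summable_iff hzero, hcomp]
    exact hsj
  refine ⟨Set.range P, ?_, ?_, hsp, ?_, fun k => ?_⟩
  · rintro _ ⟨j, rfl⟩
    exact (hPA j).1
  · intro D m hD hm n
    obtain ⟨j, hj, h1⟩ := hPr D m hD hm (n + 1)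
    refine ⟨P j, ⟨j, rfl⟩, ?_, h1⟩
    have h2 := hPm.le_apply (x := j)
    omega
  · unfold recip
    have h1 : (∑' p : ℕ, if p ∈ Set.range P then (1 : ℝ) / p else 0) = ∑' j, (1 : ℝ) / P j := by
      rw [← hcomp]
      symm
      exact hinj.tsum_eq (f := fun p : ℕ => if p ∈ Set.range P then (1 : ℝ) / p else 0) fun p hp => by
        by_contra h2
        exact hp (hzero p h2)
    have h2 : ∑' j, (1 : ℝ) / P j ≤ 1 / (M : ℝ) * 2 := by
      rw [← hgeo.tsum_eq]
      exact hsj.tsum_le_tsum hterm hgeo.summable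
    calc (∑' p : ℕ, if p ∈ Set.range P then (1 : ℝ) / p else 0) = ∑' j, (1 : ℝ) / P j := h1
      _ ≤ 1 / (M : ℝ) * 2 := h2
      _ = 2 / M := by ring
      _ ≤ δ := hM.2
  · have h1 : {p | p ∈ Set.range P ∧ p ≤ k} ⊆ P '' {j | j < ω k} := by
      rintro _ ⟨⟨j, rfl⟩, h2⟩
      exact ⟨j, hPω j k h2, rfl⟩
    have h2 : ({j | j < ω k} : Set ℕ).Finite := Set.finite_lt_nat _
    refine (Set.ncard_le_ncard h1 (h2.image _)).trans ((Set.ncard_image_le h2).trans ?_)
    have h3 : ({j | j < ω k} : Set ℕ) = ((range (ω k) : Finset ℕ) : Set ℕ) := by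
      ext j
      simp
    rw [h3, Set.ncard_coe_finset, card_range]

end Pool.Agent.H608.Tk
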